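import Mathlib
import Pool.Agent.Helper50.Rec.ArithDefs

/-!
# Exponential sums of the phases (REC-13d), with the derivative test as a hypothesis
-/

open Finset Filter Topology

namespace Pool.Agent.Helper50.Rec

/-- falling factorial -/
noncomputable def ph_ff (p : ℝ) (m : ℕ) : ℝ := ∏ j ∈ range m, (p - j)

/-- the `m`-th derivative of a sum of real powers -/
noncomputable def ph_G {ι : Type} (S : Finset ι) (α p : ι → ℝ) (m : ℕ) (x : ℝ) : ℝ :=
  ∑ t ∈ S, α t * ph_ff (p t) m * x ^ (p t - m)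

theorem ph_hasDeriv {ι : Type} (S : Finset ι) (α p : ι → ℝ) (m : ℕ) {x : ℝ} (hx : 0 < x) :
    HasDerivAt (ph_G S α p m) (ph_G S α p (m + 1) x) x := by
  unfold ph_G
  apply HasDerivAt.fun_sum
  intro t _
  have h := (Real.hasDerivAt_rpow_const (x := x) (p := p t - m) (Or.inl hx.ne')).const_mul
    (α t * ph_ff (p t) m)
  have e : α t * ph_ff (p t) (m + 1) * x ^ (p t - ((m + 1 : ℕ) : ℝ)) =
      α t * ph_ff (p t) m * ((p t - m) * x ^ (p t - m - 1)) := by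
    unfold ph_ff
    rw [prod_range_succ]
    have : p t - ((m + 1 : ℕ) : ℝ) = p t - m - 1 := by push_cast; ring
    rw [this]
    ring
  rw [e]
  exact h

theorem ph_pow_bounds {y ρ s : ℝ} (h1 : 1 ≤ y) (h2 : y ≤ ρ) :
    (ρ ^ |s|)⁻¹ ≤ y ^ s ∧ y ^ s ≤ ρ ^ |s| := by
  have hy : 0 < y := by linarith
  have hab : y ^ |s| ≤ ρ ^ |s| := Real.rpow_le_rpow hy.le h2 (abs_nonneg s)
  constructor
  · have h3 : y ^ (-|s|) ≤ y ^ s := Real.rpow_le_rpow_of_exponent_le h1 (neg_abs_le s)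
    rw [Real.rpow_neg hy.le] at h3
    refine le_trans ?_ h3
    exact inv_anti₀ (Real.rpow_pos_of_pos hy _) hab
  · exact (Real.rpow_le_rpow_of_exponent_le h1 (le_abs_self s)).trans hab

/-- the dominating term -/
theorem ph_dominate {ι : Type} (S : Finset ι) (β s w : ι → ℝ) {t₀ : ι} (ht : t₀ ∈ S)
    (hβ : 0 < β t₀) (hw : ∀ t ∈ S, t ≠ t₀ → w t < w t₀) {ρ : ℝ} (hρ : 1 ≤ ρ) :
    ∃ m M : ℝ, 0 < m ∧ m ≤ M ∧ ∀ᶠ U : ℝ in atTop, ∀ y, 1 ≤ y → y ≤ ρ →
      m * U ^ w t₀ ≤ ∑ t ∈ S, β t * y ^ s t * U ^ w t ∧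
      ∑ t ∈ S, β t * y ^ s t * U ^ w t ≤ M * U ^ w t₀ := by
  classical
  have hρ0 : 0 < ρ := by linarith
  have hP : 0 < ρ ^ |s t₀| := Real.rpow_pos_of_pos hρ0 _
  set m₀ := β t₀ * (ρ ^ |s t₀|)⁻¹ with hm₀
  have hm0 : 0 < m₀ := mul_pos hβ (inv_pos.mpr hP)
  set M₀ := β t₀ * ρ ^ |s t₀| with hM₀
  have hM0 : 0 < M₀ := mul_pos hβ hP
  have hlim : Tendsto (fun U : ℝ => ∑ t ∈ S.erase t₀, |β t| * ρ ^ |s t| * U ^ (w t - w t₀))
      atTop (𝓝 0) := by
    have h0 : (0 : ℝ) = ∑ t ∈ S.erase t₀, |β t| * ρ ^ |s t| * 0 := by simp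
    rw [h0]
    apply tendsto_finsetSum
    intro t ht
    apply Tendsto.const_mul
    have hlt := hw t (mem_of_mem_erase ht) (ne_of_mem_erase ht)
    have := tendsto_rpow_neg_atTop (y := w t₀ - w t) (by linarith)
    refine this.congr (fun U => by rw [neg_sub])
  refine ⟨m₀ / 2, M₀ + m₀ / 2, half_pos hm0, by linarith, ?_⟩
  filter_upwards [hlim.eventually (ge_mem_nhds (half_pos hm0)), eventually_gt_atTop 0]
    with U h1 hU y hy1 hy2
  have hUw : 0 < U ^ w t₀ := Real.rpow_pos_of_pos hU _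
  have hrest : |∑ t ∈ S.erase t₀, β t * y ^ s t * U ^ w t| ≤ m₀ / 2 * U ^ w t₀ := by
    refine (abs_sum_le_sum_abs _ _).trans ?_
    have h2 : ∀ t ∈ S.erase t₀, |β t * y ^ s t * U ^ w t| ≤
        |β t| * ρ ^ |s t| * U ^ (w t - w t₀) * U ^ w t₀ := by
      intro t _
      have hy : 0 < y := by linarith
      rw [mul_assoc (|β t| * ρ ^ |s t|), ← Real.rpow_add hU, sub_add_cancel, abs_mul, abs_mul,
        abs_of_pos (Real.rpow_pos_of_pos hy _), abs_of_pos (Real.rpow_pos_of_pos hU _)]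
      refine mul_le_mul_of_nonneg_right ?_ (Real.rpow_pos_of_pos hU _).le
      exact mul_le_mul_of_nonneg_left (ph_pow_bounds hy1 hy2).2 (abs_nonneg _)
    refine (sum_le_sum h2).trans ?_
    rw [← sum_mul]
    exact mul_le_mul_of_nonneg_right h1 hUw.le
  rw [← add_sum_erase S _ ht]
  have h3 := abs_le.1 hrest
  have h4 := ph_pow_bounds (s := s t₀) hy1 hy2
  have h5 : m₀ * U ^ w t₀ ≤ β t₀ * y ^ s t₀ * U ^ w t₀ :=
    mul_le_mul_of_nonneg_right (mul_le_mul_of_nonneg_left h4.1 hβ.le) hUw.le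
  have h6 : β t₀ * y ^ s t₀ * U ^ w t₀ ≤ M₀ * U ^ w t₀ :=
    mul_le_mul_of_nonneg_right (mul_le_mul_of_nonneg_left h4.2 hβ.le) hUw.le
  constructor
  · nlinarith [h3.1, h5]
  · nlinarith [h3.2, h6]

/-- the statement of the derivative test (REC-13a) -/
def ExpSum : Prop := ∀ (k : ℕ) (_ : 1 ≤ k) (C ε : ℝ) (_ : 1 ≤ C) (_ : 0 < ε),
    ∃ δ : ℝ, 0 < δ ∧ ∀ (g : ℕ → ℝ → ℝ) (u v lam : ℝ), 0 < lam → lam ≤ δ → u < v →
      1 ≤ δ * (lam * (v - u) ^ k) →
      (∀ i ≤ k, ∀ x ∈ Set.Icc u v, HasDerivAt (g i) (g (i + 1) x) x) →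
      ((∀ x ∈ Set.Icc u v, 0 ≤ g (k + 1) x) ∨ (∀ x ∈ Set.Icc u v, g (k + 1) x ≤ 0)) →
      (∀ x ∈ Set.Icc u v, lam ≤ g k x ∧ g k x ≤ C * lam) →
      ‖∑ n ∈ Finset.Icc ⌈u⌉ ⌊v⌋, ec (g 0 (n : ℤ))‖ ≤ ε * (v - u)

theorem ph_ec_neg (t : ℝ) : ec (-t) = (starRingEnd ℂ) (ec t) := by
  unfold ec
  rw [← Complex.exp_conj]
  congr 1
  rw [map_mul, map_mul, map_mul, Complex.conj_I, Complex.conj_ofReal, Complex.conj_ofReal,
    map_ofNat]
  push_cast
  ring

theorem ph_norm_neg {J : Finset ℤ} (φ : ℤ → ℝ) :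
    ‖∑ n ∈ J, ec (-(φ n))‖ = ‖∑ n ∈ J, ec (φ n)‖ := by
  simp_rw [ph_ec_neg]
  rw [← map_sum, RCLike.norm_conj]

theorem ph_ff_ne {γ : ℝ} (h : ∀ k : ℤ, γ ≠ k) (i m : ℕ) : ph_ff (γ - i) m ≠ 0 := by
  unfold ph_ff
  rw [prod_ne_zero_iff]
  intro j _ h0
  apply h ((i : ℤ) + j)
  push_cast
  linarith

theorem ph_gb_ne {γ : ℝ} (h : ∀ k : ℤ, γ ≠ k) (i : ℕ) : gb γ i ≠ 0 := by
  unfold gb
  refine div_ne_zero ?_ (by exact_mod_cast i.factorial_ne_zero)
  rw [prod_ne_zero_iff]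
  intro j _ h0
  apply h (j : ℤ)
  push_cast
  linarith

section win

variable {b : ℝ} {D r : ℕ} {η : ℝ}

theorem ph_winU_tendsto (hg : gb b D ≠ 0) (hD : 0 < D) (hbD : b < D) (hη : 0 < η) :
    Tendsto (fun q : ℕ => winU b D r η q) atTop atTop := by
  unfold winU
  have h1 : 0 < 1 / ((D : ℝ) - b) := by
    apply div_pos one_pos; linarith
  refine (tendsto_rpow_atTop h1).comp ?_
  have h2 : Tendsto (fun q : ℕ => (q : ℝ) ^ D) atTop atTop :=
    (tendsto_pow_atTop hD.ne').comp tendsto_natCast_atTop_atTop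
  have h3 : 0 < |gb b D| := abs_pos.mpr hg
  have h4 : (0 : ℝ) < r + η := by positivity
  have h5 := h2.const_mul_atTop (r := |gb b D| / (r + η)) (div_pos h3 h4)
  refine h5.congr fun q => ?_
  ring

/-- `q` in terms of the left end of the window -/
theorem ph_q_eq (hg : gb b D ≠ 0) (hD : 0 < D) (hbD : b < D) (hη : 0 < η) {q : ℕ} :
    (q : ℝ) = (((r : ℝ) + η) / |gb b D|) ^ (1 / (D : ℝ)) * winU b D r η q ^ (1 - b / D) := by
  have h3 : 0 < |gb b D| := abs_pos.mpr hg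
  have h4 : (0 : ℝ) < r + η := by positivity
  have hDr : (0 : ℝ) < D := by exact_mod_cast hD
  have hDb : (0 : ℝ) < D - b := by linarith
  unfold winU
  rw [← Real.rpow_mul (by positivity)]
  have e1 : 1 / ((D : ℝ) - b) * (1 - b / D) = 1 / D := by field_simp
  rw [e1, ← Real.mul_rpow (by positivity) (by positivity)]
  have e2 : ((r : ℝ) + η) / |gb b D| * (|gb b D| * (q : ℝ) ^ D / (r + η)) = (q : ℝ) ^ D := by
    field_simp
  rw [e2, ← Real.rpow_natCast, ← Real.rpow_mul (by positivity), mul_one_div_cancel hDr.ne',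
    Real.rpow_one]

theorem ph_winV_eq (hr : 1 ≤ r) (hη : 0 < η) {q : ℕ} :
    winV b D r q = (((r : ℝ) + η) / r) ^ (1 / ((D : ℝ) - b)) * winU b D r η q := by
  have h4 : (0 : ℝ) < r + η := by positivity
  have hr0 : (0 : ℝ) < r := by exact_mod_cast hr
  unfold winU winV
  rw [← Real.mul_rpow (by positivity) (by positivity)]
  congr 1
  field_simp

end win

theorem phase_sum_aux (hexp : ExpSum) (a b : ℝ) (D e : ℕ) (hp : Params a b D e) (r : ℕ)
    (hr : 1 ≤ r) (η : ℝ)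
    (hη : 0 < η) (κb : Fin D → ℤ) (κa : Fin e → ℤ) (hκ : κb ≠ 0 ∨ κa ≠ 0) (c ε : ℝ)
    (hc : 0 < c) (hε : 0 < ε) :
    ∃ q₀ : ℕ, ∀ q ≥ q₀, ∀ u v : ℝ, winU b D r η q ≤ u → u < v → v ≤ winV b D r q →
      c * (winU b D r η q / ((winU b D r η q) ^ (a - e) * (q : ℝ) ^ e)) ≤ v - u →
      ‖∑ n ∈ Finset.Icc ⌈u⌉ ⌊v⌋, ec (phase a b D e r q κb κa (n : ℤ))‖ ≤ ε * (v - u) := by
  classical
  -- basic facts on the parameters
  have ha0 : 0 < a := by linarith [hp.ha]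
  have hb0 : 0 < b := by linarith [hp.hab]
  have hDr : (1 : ℝ) < D := by linarith [hp.hD]
  have hD : 0 < D := by
    have : (0 : ℝ) < D := by linarith
    exact_mod_cast this
  have hbD : b < D := by linarith [hp.hD]
  have hr0 : (0 : ℝ) < r := by exact_mod_cast hr
  have hgD : gb b D ≠ 0 := ph_gb_ne hp.hb' D
  set τ : ℝ := b / D with hτ
  have hτ0 : 0 < τ := by positivity
  have hDτ : (D : ℝ) * τ = b := by rw [hτ]; field_simp
  have hτ2 : τ < 1 / 2 := by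
    rw [hτ, div_lt_iff₀ (by linarith)]
    linarith [hp.hD]
  have hfl1 : (e : ℝ) < a / τ := by
    have h1 : (e : ℝ) ≤ a * D / b := by
      rw [hp.he]; exact Nat.floor_le (by positivity)
    have h2 : (e : ℝ) ≠ a * D / b := by
      intro h
      apply hp.hne e
      rw [← h]; push_cast; rfl
    have h3 : a / τ = a * D / b := by rw [hτ]; field_simp
    rw [h3]
    exact lt_of_le_of_ne h1 h2
  have hfl2 : a / τ < e + 1 := by
    have h3 : a / τ = a * D / b := by rw [hτ]; field_simp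
    rw [h3, hp.he]
    exact Nat.lt_floor_add_one _
  set κ : ℝ := a - e * τ with hκdef
  have hκ0 : 0 < κ := by
    rw [lt_div_iff₀ hτ0] at hfl1
    rw [hκdef]; linarith
  have hκτ : κ < τ := by
    rw [div_lt_iff₀ hτ0] at hfl2
    rw [hκdef]; linarith
  -- the terms
  set α : Fin D ⊕ Fin e → ℝ := Sum.elim (fun i => κb i * gb b i / r) (fun i => κa i * gb a i / r)
    with hα
  set γ : Fin D ⊕ Fin e → ℝ := Sum.elim (fun _ => b) (fun _ => a) with hγ
  set j : Fin D ⊕ Fin e → ℕ := Sum.elim (fun i => (i : ℕ)) (fun i => (i : ℕ)) with hj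
  set p : Fin D ⊕ Fin e → ℝ := fun t => γ t - j t with hpdef
  set w : Fin D ⊕ Fin e → ℝ := fun t => γ t - j t * τ with hw
  have hγint : ∀ t, ∀ k : ℤ, γ t ≠ k := by
    rintro (i | i) k
    · exact hp.hb' k
    · exact hp.ha' k
  set S : Finset (Fin D ⊕ Fin e) := univ.filter fun t => α t ≠ 0 with hS
  have hSne : S.Nonempty := by
    rcases hκ with h | h
    · obtain ⟨i, hi⟩ := Function.ne_iff.1 h
      refine ⟨Sum.inl i, ?_⟩
      rw [hS, mem_filter]
      refine ⟨mem_univ _, ?_⟩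
      show (κb i : ℝ) * gb b i / r ≠ 0
      refine div_ne_zero (mul_ne_zero ?_ (ph_gb_ne hp.hb' _)) hr0.ne'
      exact_mod_cast hi
    · obtain ⟨i, hi⟩ := Function.ne_iff.1 h
      refine ⟨Sum.inr i, ?_⟩
      rw [hS, mem_filter]
      refine ⟨mem_univ _, ?_⟩
      show (κa i : ℝ) * gb a i / r ≠ 0
      refine div_ne_zero (mul_ne_zero ?_ (ph_gb_ne hp.ha' _)) hr0.ne'
      exact_mod_cast hi
  obtain ⟨t₀, ht₀, hmax⟩ := exists_max_image S w hSne
  have hinj : ∀ t t', w t = w t' → t = t' := by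
    have hcross : ∀ (i : Fin D) (i' : Fin e), b - (i : ℕ) * τ ≠ a - (i' : ℕ) * τ := by
      intro i i' h
      apply hp.hne ((D : ℤ) - i + i')
      have h1 : a = b - ((i : ℕ) : ℝ) * τ + ((i' : ℕ) : ℝ) * τ := by linarith
      rw [eq_comm, eq_div_iff hb0.ne', h1]
      push_cast
      rw [← hDτ]
      ring
    rintro (i | i) (i' | i') h
    · have h1 : b - ((i : ℕ) : ℝ) * τ = b - ((i' : ℕ) : ℝ) * τ := h
      have h2 : ((i : ℕ) : ℝ) = ((i' : ℕ) : ℝ) := by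
        have : ((i : ℕ) : ℝ) * τ = ((i' : ℕ) : ℝ) * τ := by linarith
        exact mul_right_cancel₀ hτ0.ne' this
      have h3 : (i : ℕ) = i' := by exact_mod_cast h2
      rw [Fin.ext h3]
    · exact absurd h (hcross i i')
    · exact absurd h.symm (hcross i' i)
    · have h1 : a - ((i : ℕ) : ℝ) * τ = a - ((i' : ℕ) : ℝ) * τ := h
      have h2 : ((i : ℕ) : ℝ) = ((i' : ℕ) : ℝ) := by
        have : ((i : ℕ) : ℝ) * τ = ((i' : ℕ) : ℝ) * τ := by linarith
        exact mul_right_cancel₀ hτ0.ne' this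
      have h3 : (i : ℕ) = i' := by exact_mod_cast h2
      rw [Fin.ext h3]
  have hwlt : ∀ t ∈ S, t ≠ t₀ → w t < w t₀ := fun t ht hne =>
    lt_of_le_of_ne (hmax t ht) fun h => hne (hinj _ _ h)
  have hwτ : ∀ t, τ ≤ w t := by
    rintro (i | i)
    · show τ ≤ b - ((i : ℕ) : ℝ) * τ
      have h1 : ((i : ℕ) : ℝ) + 1 ≤ D := by exact_mod_cast i.2
      nlinarith
    · show τ ≤ a - ((i : ℕ) : ℝ) * τ
      have h1 : ((i : ℕ) : ℝ) + 1 ≤ e := by exact_mod_cast i.2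
      have h2 : (((i : ℕ) : ℝ) + 1) * τ ≤ e * τ := mul_le_mul_of_nonneg_right h1 hτ0.le
      linarith
  set σ : ℝ := w t₀ with hσ
  have hστ : τ ≤ σ := hwτ t₀
  have hσ0 : 0 < σ := lt_of_lt_of_le hτ0 hστ
  -- the order of the derivative
  set k : ℕ := ⌊σ⌋₊ + 1 with hk
  have hk1 : 1 ≤ k := Nat.le_add_left 1 _
  have hkσ : σ < k := by
    rw [hk]; push_cast; exact Nat.lt_floor_add_one σ
  have hkκ : (k : ℝ) * κ < σ := by
    have h1 : (k : ℝ) ≤ σ + 1 := by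
      rw [hk]; push_cast
      linarith [Nat.floor_le hσ0.le]
    by_cases h2 : σ < 1
    · have h3 : k = 1 := by
        rw [hk, Nat.floor_eq_zero.2 h2]
      rw [h3]; push_cast
      linarith
    · push Not at h2
      have h3 : (k : ℝ) * κ ≤ (σ + 1) * κ := mul_le_mul_of_nonneg_right h1 hκ0.le
      nlinarith
  -- constants
  have hg0 : 0 < |gb b D| := abs_pos.mpr hgD
  have hrη : (0 : ℝ) < r + η := by positivity
  set C1 : ℝ := (((r : ℝ) + η) / |gb b D|) ^ (1 / (D : ℝ)) with hC1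
  have hC10 : 0 < C1 := Real.rpow_pos_of_pos (div_pos hrη hg0) _
  set ρ : ℝ := (((r : ℝ) + η) / r) ^ (1 / ((D : ℝ) - b)) with hρ
  have hρ1 : 1 ≤ ρ := by
    rw [hρ]
    apply Real.one_le_rpow
    · rw [one_le_div hr0]; linarith
    · apply div_nonneg one_pos.le; linarith
  -- the sign
  have hff : ∀ t m, ph_ff (p t) m ≠ 0 := fun t m => ph_ff_ne (hγint t) (j t) m
  have hαt₀ : α t₀ ≠ 0 := by
    rw [hS, mem_filter] at ht₀
    exact ht₀.2
  obtain ⟨s, hs, hspos⟩ : ∃ s : ℝ, (s = 1 ∨ s = -1) ∧ 0 < s * α t₀ * ph_ff (p t₀) k := by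
    rcases lt_or_gt_of_ne (mul_ne_zero hαt₀ (hff t₀ k)) with h | h
    · exact ⟨-1, Or.inr rfl, by linarith⟩
    · exact ⟨1, Or.inl rfl, by linarith⟩
  -- the general form of the derivatives on the window
  have hform : ∀ (m q : ℕ) (U y : ℝ), 0 < U → 0 < y → (q : ℝ) = C1 * U ^ (1 - τ) →
      ph_G S (fun t => s * α t * (q : ℝ) ^ j t) p m (U * y) =
        ∑ t ∈ S, (s * α t * ph_ff (p t) m * C1 ^ j t) * y ^ (p t - m) * U ^ (w t - m) := by
    intro m q U y hU hy hq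
    unfold ph_G
    refine sum_congr rfl fun t _ => ?_
    beta_reduce
    rw [hq, Real.mul_rpow hU.le hy.le, mul_pow, ← Real.rpow_natCast (U ^ (1 - τ)),
      ← Real.rpow_mul hU.le]
    have e1 : U ^ (w t - m) = U ^ ((1 - τ) * (j t : ℝ)) * U ^ (p t - m) := by
      rw [← Real.rpow_add hU]
      congr 1
      simp only [hw, hpdef]
      ring
    rw [e1]
    ring
  have hwk : ∀ (m : ℕ), ∀ t ∈ S, t ≠ t₀ → w t - m < w t₀ - m := fun m t ht hne => by
    linarith [hwlt t ht hne]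
  obtain ⟨m, M, hm, hmM, hev⟩ := ph_dominate S (fun t => s * α t * ph_ff (p t) k * C1 ^ j t)
    (fun t => p t - k) (fun t => w t - k) ht₀ (mul_pos hspos (pow_pos hC10 _)) (hwk k) hρ1
  have hev1 : ∀ᶠ U : ℝ in atTop,
      (∀ y, 1 ≤ y → y ≤ ρ → 0 ≤ ∑ t ∈ S, (s * α t * ph_ff (p t) (k + 1) * C1 ^ j t) *
        y ^ (p t - (k + 1 : ℕ)) * U ^ (w t - (k + 1 : ℕ))) ∨
      (∀ y, 1 ≤ y → y ≤ ρ → ∑ t ∈ S, (s * α t * ph_ff (p t) (k + 1) * C1 ^ j t) *
        y ^ (p t - (k + 1 : ℕ)) * U ^ (w t - (k + 1 : ℕ)) ≤ 0) := by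
    have hne : s * α t₀ * ph_ff (p t₀) (k + 1) * C1 ^ j t₀ ≠ 0 := by
      have hs0 : s ≠ 0 := by rcases hs with h | h <;> rw [h] <;> norm_num
      exact mul_ne_zero (mul_ne_zero (mul_ne_zero hs0 hαt₀) (hff _ _)) (pow_pos hC10 _).ne'
    rcases lt_or_gt_of_ne hne with h | h
    · obtain ⟨m', M', hm', -, hev'⟩ := ph_dominate S
        (fun t => -(s * α t * ph_ff (p t) (k + 1) * C1 ^ j t))
        (fun t => p t - (k + 1 : ℕ)) (fun t => w t - (k + 1 : ℕ)) ht₀ (by linarith) (hwk (k + 1)) hρ1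
      filter_upwards [hev', eventually_gt_atTop 0] with U hU hU0
      right
      intro y hy1 hy2
      have h1 := (hU y hy1 hy2).1
      have h2 : 0 < m' * U ^ (w t₀ - (k + 1 : ℕ)) := mul_pos hm' (Real.rpow_pos_of_pos hU0 _)
      have h3 : ∑ t ∈ S, -(s * α t * ph_ff (p t) (k + 1) * C1 ^ j t) *
          y ^ (p t - (k + 1 : ℕ)) * U ^ (w t - (k + 1 : ℕ)) =
          -∑ t ∈ S, (s * α t * ph_ff (p t) (k + 1) * C1 ^ j t) *
          y ^ (p t - (k + 1 : ℕ)) * U ^ (w t - (k + 1 : ℕ)) := by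
        rw [← sum_neg_distrib]
        refine sum_congr rfl fun t _ => by ring
      rw [h3] at h1
      linarith
    · obtain ⟨m', M', hm', -, hev'⟩ := ph_dominate S
        (fun t => (s * α t * ph_ff (p t) (k + 1) * C1 ^ j t))
        (fun t => p t - (k + 1 : ℕ)) (fun t => w t - (k + 1 : ℕ)) ht₀ h (hwk (k + 1)) hρ1
      filter_upwards [hev', eventually_gt_atTop 0] with U hU hU0
      left
      intro y hy1 hy2
      have h1 := (hU y hy1 hy2).1
      have h2 : 0 < m' * U ^ (w t₀ - (k + 1 : ℕ)) := mul_pos hm' (Real.rpow_pos_of_pos hU0 _)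
      linarith
  -- the derivative test
  obtain ⟨δ, hδ, htest⟩ := hexp k hk1 (M / m) ε ((one_le_div hm).2 hmM) hε
  have hev2 : ∀ᶠ U : ℝ in atTop, m * U ^ (σ - k) ≤ δ := by
    have h1 := (tendsto_rpow_neg_atTop (y := (k : ℝ) - σ) (by linarith)).const_mul m
    rw [mul_zero] at h1
    filter_upwards [h1.eventually (ge_mem_nhds hδ)] with U hU
    rwa [neg_sub] at hU
  set c1 : ℝ := c * (C1 ^ e)⁻¹ with hc1
  have hc10 : 0 < c1 := by positivity
  have hev3 : ∀ᶠ U : ℝ in atTop, 1 ≤ δ * (m * c1 ^ k * U ^ (σ - k * κ)) := by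
    have h1 := tendsto_rpow_atTop (y := σ - k * κ) (by linarith)
    have h2 := (h1.const_mul_atTop (r := δ * (m * c1 ^ k)) (by positivity)).eventually_ge_atTop 1
    filter_upwards [h2] with U hU
    linarith
  have hevU : ∀ᶠ U : ℝ in atTop, 0 < U := eventually_gt_atTop 0
  have hall := ((ph_winU_tendsto (r := r) hgD hD hbD hη).eventually
    (hev.and (hev1.and (hev2.and (hev3.and hevU)))))
  obtain ⟨q₀, hq₀⟩ := eventually_atTop.1 hall
  refine ⟨q₀, fun q hq u v hu huv hv hlen => ?_⟩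
  obtain ⟨g1, g2, g3, g4, g5⟩ := hq₀ q hq
  have hqU := ph_q_eq (b := b) (D := D) (r := r) hgD hD hbD hη (q := q)
  have hVU := ph_winV_eq (b := b) (D := D) (q := q) hr hη
  rw [← hC1, ← hτ] at hqU
  rw [← hρ] at hVU
  set U : ℝ := winU b D r η q with hU
  -- the phase
  have hphase : ∀ x : ℝ, s * phase a b D e r q κb κa x =
      ph_G S (fun t => s * α t * (q : ℝ) ^ j t) p 0 x := by
    intro x
    unfold ph_G phase
    have h1 : ∑ t ∈ S, s * α t * (q : ℝ) ^ j t * ph_ff (p t) 0 * x ^ (p t - (0 : ℕ)) =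
        ∑ t, s * α t * (q : ℝ) ^ j t * ph_ff (p t) 0 * x ^ (p t - (0 : ℕ)) := by
      rw [hS, sum_filter_of_ne]
      intro t _ hne h0
      apply hne
      rw [h0]; simp
    rw [h1, Fintype.sum_sum_type, mul_add, mul_sum, mul_sum]
    congr 1
    · refine sum_congr rfl fun i _ => ?_
      simp only [hα, hj, hpdef, hγ, Sum.elim_inl, ph_ff, range_zero, prod_empty, Nat.cast_zero,
        sub_zero]
      ring
    · refine sum_congr rfl fun i _ => ?_
      simp only [hα, hj, hpdef, hγ, Sum.elim_inr, ph_ff, range_zero, prod_empty, Nat.cast_zero,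
        sub_zero]
      ring
  have hy : ∀ x ∈ Set.Icc u v, 1 ≤ x / U ∧ x / U ≤ ρ ∧ x = U * (x / U) ∧ 0 < x := by
    intro x hx
    refine ⟨?_, ?_, ?_, ?_⟩
    · rw [one_le_div g5]; exact hu.trans hx.1
    · rw [div_le_iff₀ g5, ← hVU]; exact hx.2.trans hv
    · field_simp
    · exact g5.trans_le (hu.trans hx.1)
  have hmain := htest (ph_G S (fun t => s * α t * (q : ℝ) ^ j t) p) u v (m * U ^ (σ - k))
    (mul_pos hm (Real.rpow_pos_of_pos g5 _)) g3 huv ?_ ?_ ?_ ?_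
  · have h1 : ‖∑ n ∈ Finset.Icc ⌈u⌉ ⌊v⌋, ec (phase a b D e r q κb κa (n : ℤ))‖ =
        ‖∑ n ∈ Finset.Icc ⌈u⌉ ⌊v⌋,
          ec (ph_G S (fun t => s * α t * (q : ℝ) ^ j t) p 0 (n : ℤ))‖ := by
      rcases hs with h | h
      · refine congrArg _ (sum_congr rfl fun n _ => ?_)
        rw [← hphase, h, one_mul]
      · rw [← ph_norm_neg (fun n : ℤ => phase a b D e r q κb κa (n : ℤ))]
        refine congrArg _ (sum_congr rfl fun n _ => ?_)
        rw [← hphase, h, neg_one_mul]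
    rw [h1]
    exact hmain
  · -- the length condition
    have h1 : c1 * U ^ (1 - κ) ≤ v - u := by
      refine le_trans (le_of_eq ?_) hlen
      rw [hc1, mul_assoc]
      congr 1
      rw [hqU, mul_pow, ← Real.rpow_natCast (U ^ (1 - τ)), ← Real.rpow_mul g5.le]
      have e1 : U ^ (a - (e : ℝ)) * (C1 ^ e * U ^ ((1 - τ) * (e : ℝ))) =
          C1 ^ e * U ^ (κ) := by
        have : U ^ κ = U ^ (a - (e : ℝ)) * U ^ ((1 - τ) * (e : ℝ)) := by
          rw [← Real.rpow_add g5]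
          congr 1
          rw [hκdef]; ring
        rw [this]; ring
      rw [e1, Real.rpow_sub g5, Real.rpow_one]
      have h5 : 0 < U ^ κ := Real.rpow_pos_of_pos g5 _
      have h6 : 0 < C1 ^ e := pow_pos hC10 _
      field_simp
    have h0 : 0 ≤ c1 * U ^ (1 - κ) := by
      have := Real.rpow_pos_of_pos g5 (1 - κ)
      positivity
    have h2 : (c1 * U ^ (1 - κ)) ^ k ≤ (v - u) ^ k := pow_le_pow_left₀ h0 h1 k
    have h3 : m * U ^ (σ - k) * (c1 * U ^ (1 - κ)) ^ k = m * c1 ^ k * U ^ (σ - k * κ) := by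
      rw [mul_pow, ← Real.rpow_natCast (U ^ (1 - κ)), ← Real.rpow_mul g5.le]
      have : U ^ (σ - k * κ) = U ^ (σ - k) * U ^ ((1 - κ) * (k : ℝ)) := by
        rw [← Real.rpow_add g5]
        congr 1
        ring
      rw [this]; ring
    have h4 : m * c1 ^ k * U ^ (σ - k * κ) ≤ m * U ^ (σ - k) * (v - u) ^ k := by
      rw [← h3]
      exact mul_le_mul_of_nonneg_left h2 (mul_pos hm (Real.rpow_pos_of_pos g5 _)).le
    exact g4.trans (mul_le_mul_of_nonneg_left h4 hδ.le)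
  · intro i _ x hx
    exact ph_hasDeriv S _ p i (hy x hx).2.2.2
  · have hgen : ∀ x ∈ Set.Icc u v, ph_G S (fun t => s * α t * (q : ℝ) ^ j t) p (k + 1) x =
        ∑ t ∈ S, (s * α t * ph_ff (p t) (k + 1) * C1 ^ j t) *
        (x / U) ^ (p t - (k + 1 : ℕ)) * U ^ (w t - (k + 1 : ℕ)) := by
      intro x hx
      obtain ⟨y1, y2, y3, y4⟩ := hy x hx
      conv_lhs => rw [y3]
      exact hform (k + 1) q U (x / U) g5 (by linarith) hqU
    rcases g2 with h | h
    · left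
      intro x hx
      rw [hgen x hx]
      exact h _ (hy x hx).1 (hy x hx).2.1
    · right
      intro x hx
      rw [hgen x hx]
      exact h _ (hy x hx).1 (hy x hx).2.1
  · intro x hx
    obtain ⟨y1, y2, y3, y4⟩ := hy x hx
    have hgen : ph_G S (fun t => s * α t * (q : ℝ) ^ j t) p k x =
        ∑ t ∈ S, (s * α t * ph_ff (p t) k * C1 ^ j t) *
        (x / U) ^ (p t - k) * U ^ (w t - k) := by
      conv_lhs => rw [y3]
      exact hform k q U (x / U) g5 (by linarith) hqU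
    have h1 := g1 (x / U) y1 y2
    rw [hgen]
    refine ⟨h1.1, h1.2.trans (le_of_eq ?_)⟩
    have : M / m * (m * U ^ (σ - k)) = M * U ^ (σ - k) := by
      field_simp
    rw [this]

end Pool.Agent.Helper50.Rec
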