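import Pool.Agent.Helper42.Rec.ExpSum
import Pool.Agent.Helper68.Rec.PhaseAux

/-! REC-13d: exponential sums with the phases. -/

namespace Pool.Agent.Helper50.Rec

theorem phase_sum (a b : ℝ) (D e : ℕ) (hp : Params a b D e) (r : ℕ) (hr : 1 ≤ r) (η : ℝ)
    (hη : 0 < η) (κb : Fin D → ℤ) (κa : Fin e → ℤ) (hκ : κb ≠ 0 ∨ κa ≠ 0) (c ε : ℝ)
    (hc : 0 < c) (hε : 0 < ε) :
    ∃ q₀ : ℕ, ∀ q ≥ q₀, ∀ u v : ℝ, winU b D r η q ≤ u → u < v → v ≤ winV b D r q →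
      c * (winU b D r η q / ((winU b D r η q) ^ (a - e) * (q : ℝ) ^ e)) ≤ v - u →
      ‖∑ n ∈ Finset.Icc ⌈u⌉ ⌊v⌋, ec (phase a b D e r q κb κa (n : ℤ))‖ ≤ ε * (v - u) :=
  phase_sum_aux (fun k hk C ε hC hε => expsum k hk C ε hC hε) a b D e hp r hr η hη κb κa hκ c ε
    hc hε

end Pool.Agent.Helper50.Rec
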